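import Mathlib
import Pool.Agent.R166.BHW.RecGen
import Pool.Agent.R166.BHW.Lat

set_option autoImplicit false
open scoped Pointwise

namespace Pool.Agent.Results.MP_98df5b_co.DivisibleFromThird

open Submodule R166.BHW

/-- The successive minimum number `i + 1` (so `i = 0` is the first one) of the set `K` with
respect to the lattice spanned over `ℤ` by the basis `b`, literally as in the frozen statement
`S10315`. -/
noncomputable def lam {d : ℕ} (b : Module.Basis (Fin d) ℝ (EuclideanSpace ℝ (Fin d)))
    (K : Set (EuclideanSpace ℝ (Fin d))) (i : ℕ) : ℝ :=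
  sInf {t : ℝ | 0 < t ∧
    i + 1 ≤ Module.finrank ℝ
      (Submodule.span ℝ ((t • K) ∩
        (Submodule.span ℤ (Set.range b) : Set (EuclideanSpace ℝ (Fin d)))))}

/-- The Betke-Henk-Wills inequality for an arbitrary origin-symmetric convex body, an arbitrary
first and second factor, and divisibility of consecutive factors from the third one on (needed only
for those successive minima that are at most one). -/
theorem result :
    ∀ (d : ℕ) (b : Module.Basis (Fin d) ℝ (EuclideanSpace ℝ (Fin d)))
      (K : Set (EuclideanSpace ℝ (Fin d))),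
      Convex ℝ K → IsCompact K → (interior K).Nonempty → (∀ x ∈ K, -x ∈ K) →
      (∀ i : ℕ, 2 ≤ i → i + 1 < d → lam b K (i + 1) ≤ 1 →
        Int.floor (2 / lam b K (i + 1) + 1) ∣ Int.floor (2 / lam b K i + 1)) →
      ((K ∩ (Submodule.span ℤ (Set.range b) : Set (EuclideanSpace ℝ (Fin d)))).ncard : ℤ) ≤
        ∏ i : Fin d, Int.floor (2 / lam b K i.val + 1) := by
  classical
  intro d b K hc hK hi hs hdv
  refine final d b K hc hK hi hs ?_
  intro m hm hpos hfl hrank
  have hfl' : ∀ i, i < d → ((m i : ℕ) : ℤ) = Int.floor (2 / lam b K i + 1) := hfl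
  set L : Submodule ℤ (EuclideanSpace ℝ (Fin d)) := span ℤ (Set.range b) with hL
  let B := b.restrictScalars ℤ
  have hfree : Module.Free ℤ L := Module.Free.of_basis B
  have hfin : Module.Finite ℤ L := Module.Finite.of_basis B
  have hr : Module.finrank ℤ L = d := by
    rw [Module.finrank_eq_card_basis B]; simp
  set r := Module.finrank ℝ (span ℝ (K ∩ (L : Set (EuclideanSpace ℝ (Fin d))))) with hrdef
  have hrd : r ≤ d := by
    have := Submodule.finrank_le (span ℝ (K ∩ (L : Set (EuclideanSpace ℝ (Fin d)))))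
    simpa using this
  have hdisc : ∀ R : ℝ, {a : L | ‖L.subtype a‖ ≤ R}.Finite := by
    intro R
    have h2 := ZSpan.setFinite_inter b (Metric.isBounded_closedBall (x := (0 : EuclideanSpace ℝ (Fin d))) (r := R))
    refine Set.Finite.of_injOn (f := fun a : L => (a : EuclideanSpace ℝ (Fin d)))
      (t := Metric.closedBall 0 R ∩ (L : Set (EuclideanSpace ℝ (Fin d)))) ?_
      Subtype.val_injective.injOn h2
    intro a ha
    refine ⟨?_, a.2⟩
    have ha' : ‖L.subtype a‖ ≤ R := ha
    simpa using ha'
  have hfinK : {a : L | (a : EuclideanSpace ℝ (Fin d)) ∈ K}.Finite := by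
    have h2 := ZSpan.setFinite_inter b hK.isBounded
    refine Set.Finite.of_injOn (f := fun a : L => (a : EuclideanSpace ℝ (Fin d)))
      (t := K ∩ (L : Set (EuclideanSpace ℝ (Fin d)))) ?_ Subtype.val_injective.injOn h2
    intro a ha
    exact ⟨ha, a.2⟩
  have himg : K ∩ (L : Set (EuclideanSpace ℝ (Fin d))) =
      (fun a : L => (a : EuclideanSpace ℝ (Fin d))) '' {a : L | (a : EuclideanSpace ℝ (Fin d)) ∈ K} := by
    ext x
    constructor
    · rintro ⟨hx, hxL⟩
      exact ⟨⟨x, hxL⟩, hx, rfl⟩
    · rintro ⟨a, ha, rfl⟩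
      exact ⟨ha, a.2⟩
  have hcard : (K ∩ (L : Set (EuclideanSpace ℝ (Fin d)))).ncard = hfinK.toFinset.card := by
    rw [himg, Set.ncard_image_of_injective _ Subtype.val_injective, Set.ncard_eq_toFinset_card _ hfinK]
  have hdvd : ∀ j, 2 ≤ j → j + 1 < r → m (j + 1) ∣ m j := by
    intro j hj hjr
    have hl : lam b K (j + 1) ≤ 1 := by
      apply csInf_le ⟨0, fun t ht => ht.1.le⟩
      refine ⟨one_pos, ?_⟩
      rw [one_smul]
      show j + 1 + 1 ≤ Module.finrank ℝ (span ℝ (K ∩ (L : Set (EuclideanSpace ℝ (Fin d)))))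
      rw [← hrdef]
      omega
    have h1 := hdv j hj (by omega) hl
    rw [← hfl' j (by omega), ← hfl' (j + 1) (by omega)] at h1
    exact_mod_cast h1
  have hmain : hfinK.toFinset.card ≤ ∏ j ∈ Finset.range r, m j := by
    refine rec_rank m hm hpos ((2 : ℝ) • K) K hc ?_ r hdvd d L L.subtype hr hrd
      (fun k v hv => indep b k v hv) ?_ hdisc (fun j hj => hrank j (by omega)) ?_ hfinK.toFinset ?_
    · intro x hx y hy
      refine ⟨(1/2 : ℝ) • x + (1/2 : ℝ) • (-y),
        hc hx (hs _ hy) (by norm_num) (by norm_num) (by norm_num), ?_⟩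
      show (2 : ℝ) • ((1/2 : ℝ) • x + (1/2 : ℝ) • (-y)) = x - y
      module
    · intro a ha
      exact Subtype.ext ha
    · rw [hrdef, himg]
      exact le_rfl
    · intro a ha
      simpa using ha
  rw [hcard]
  refine hmain.trans ?_
  refine Finset.prod_le_prod_of_subset_of_one_le' ?_ ?_
  · intro j hj
    rw [Finset.mem_range] at hj ⊢
    omega
  · intro j _ _
    exact hpos j

end Pool.Agent.Results.MP_98df5b_co.DivisibleFromThird
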