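import Mathlib
import Pool.Agent.R166.BHW.Ell
import Pool.Agent.R166.BHW.Lat

set_option autoImplicit false
open scoped Pointwise

namespace Pool.Agent.Results.MP_98df5b_co.Ellipsoids

open Submodule R166.BHW

/-- The Betke-Henk-Wills inequality for every ellipsoid centred at the origin (the image of the
unit ball under an invertible linear map), every lattice and every dimension. -/
theorem result :
    ∀ (d : ℕ) (b : Module.Basis (Fin d) ℝ (EuclideanSpace ℝ (Fin d)))
      (K : Set (EuclideanSpace ℝ (Fin d))),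
      (∃ T : EuclideanSpace ℝ (Fin d) ≃ₗ[ℝ] EuclideanSpace ℝ (Fin d),
        K = T '' Metric.closedBall 0 1) →
      ((K ∩ (Submodule.span ℤ (Set.range b) : Set (EuclideanSpace ℝ (Fin d)))).ncard : ℤ) ≤
        ∏ i : Fin d,
          Int.floor (2 / sInf {t : ℝ | 0 < t ∧
              i.val + 1 ≤ Module.finrank ℝ
                (Submodule.span ℝ ((t • K) ∩
                  (Submodule.span ℤ (Set.range b) : Set (EuclideanSpace ℝ (Fin d)))))} + 1) := by
  classical
  intro d b K hT
  obtain ⟨T, rfl⟩ := hT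
  have hcont : Continuous T := T.toLinearMap.continuous_of_finiteDimensional
  have hconts : Continuous T.symm := T.symm.toLinearMap.continuous_of_finiteDimensional
  have hc : Convex ℝ (T '' Metric.closedBall 0 1) :=
    (convex_closedBall 0 1).linear_image T.toLinearMap
  have hK : IsCompact (T '' Metric.closedBall 0 1) :=
    (isCompact_closedBall 0 1).image hcont
  have hmem : ∀ x, x ∈ T '' Metric.closedBall 0 1 ↔ ‖T.symm x‖ ≤ 1 := by
    intro x
    constructor
    · rintro ⟨y, hy, rfl⟩
      simpa using hy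
    · intro h
      exact ⟨T.symm x, by simpa using h, by simp⟩
  have hi : (interior (T '' Metric.closedBall 0 1)).Nonempty := by
    refine ⟨0, mem_interior.2 ⟨T.symm ⁻¹' Metric.ball 0 1, ?_, Metric.isOpen_ball.preimage hconts, ?_⟩⟩
    · intro x hx
      rw [hmem]
      have : ‖T.symm x‖ < 1 := by simpa using hx
      exact this.le
    · simp
  have hs : ∀ x ∈ T '' Metric.closedBall 0 1, -x ∈ T '' Metric.closedBall 0 1 := by
    intro x hx
    rw [hmem] at hx ⊢
    rwa [map_neg, norm_neg]
  refine final d b _ hc hK hi hs ?_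
  intro m hm hpos _ hrank
  set L : Submodule ℤ (EuclideanSpace ℝ (Fin d)) := span ℤ (Set.range b) with hL
  let B := b.restrictScalars ℤ
  have hfree : Module.Free ℤ L := Module.Free.of_basis B
  have hfin : Module.Finite ℤ L := Module.Finite.of_basis B
  have hr : Module.finrank ℤ L = d := by
    rw [Module.finrank_eq_card_basis B]; simp
  let ι : L →ₗ[ℤ] EuclideanSpace ℝ (Fin d) := (T.symm.toLinearMap.restrictScalars ℤ).comp L.subtype
  have hιa : ∀ a : L, ι a = T.symm a := fun a => rfl
  have hI : ∀ (k : ℕ) (v : Fin k → L), LinearIndependent ℤ v →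
      LinearIndependent ℝ (fun i => ι (v i)) := by
    intro k v hv
    exact (indep b k v hv).map' T.symm.toLinearMap (LinearMap.ker_eq_bot.2 T.symm.injective)
  have hdisc : ∀ R : ℝ, {a : L | ‖ι a‖ ≤ R}.Finite := by
    intro R
    have h1 : Bornology.IsBounded (T '' Metric.closedBall 0 R) :=
      ((isCompact_closedBall 0 R).image hcont).isBounded
    have h2 := ZSpan.setFinite_inter b h1
    refine Set.Finite.of_injOn (f := fun a : L => (a : EuclideanSpace ℝ (Fin d)))
      (t := T '' Metric.closedBall 0 R ∩ (L : Set (EuclideanSpace ℝ (Fin d)))) ?_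
      Subtype.val_injective.injOn h2
    intro a ha
    refine ⟨⟨T.symm a, ?_, by simp⟩, a.2⟩
    have ha' : ‖ι a‖ ≤ R := ha
    rw [hιa] at ha'
    simpa using ha'
  have hrk : ∀ j < d, Module.finrank ℝ (span ℝ (ι '' {a : L | ‖(m j : ℝ) • ι a‖ ≤ 2})) ≤ j := by
    intro j hj
    refine le_trans ?_ (hrank j hj)
    have h1 : ι '' {a : L | ‖(m j : ℝ) • ι a‖ ≤ 2} = T.symm.toLinearMap '' (L.subtype ''
        {a : L | ‖(m j : ℝ) • ι a‖ ≤ 2}) := by
      rw [Set.image_image]; rfl
    rw [h1, ← Submodule.map_span]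
    refine (Submodule.finrank_map_le _ _).trans ?_
    apply Submodule.finrank_mono
    apply span_mono
    rintro _ ⟨a, ha, rfl⟩
    refine ⟨a, ?_, rfl⟩
    have ha' : ‖(m j : ℝ) • ι a‖ ≤ 2 := ha
    refine ⟨(1 / 2 : ℝ) • ((m j : ℝ) • (a : EuclideanSpace ℝ (Fin d))), ?_, ?_⟩
    · rw [hmem, map_smul, map_smul, norm_smul, ← hιa]
      rw [Real.norm_of_nonneg (by norm_num)]
      linarith
    · show (2 : ℝ) • (1 / 2 : ℝ) • ((m j : ℝ) • (a : EuclideanSpace ℝ (Fin d))) = _
      rw [smul_smul]; norm_num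
  have hfinK : {a : L | ‖ι a‖ ≤ 1}.Finite := hdisc 1
  let S : Finset (Unit × L) := hfinK.toFinset.image (fun a => ((), a))
  have hSc : S.card = hfinK.toFinset.card := by
    apply Finset.card_image_of_injective
    intro a b h
    exact (Prod.mk.inj h).2
  have hcard : S.card = (T '' Metric.closedBall 0 1 ∩ (L : Set (EuclideanSpace ℝ (Fin d)))).ncard := by
    rw [hSc, ← Set.ncard_eq_toFinset_card _ hfinK]
    have : (T '' Metric.closedBall 0 1 ∩ (L : Set (EuclideanSpace ℝ (Fin d)))) =
        (fun a : L => (a : EuclideanSpace ℝ (Fin d))) '' {a : L | ‖ι a‖ ≤ 1} := by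
      ext x
      constructor
      · rintro ⟨hx, hxL⟩
        refine ⟨⟨x, hxL⟩, ?_, rfl⟩
        rw [hmem] at hx
        exact hx
      · rintro ⟨a, ha, rfl⟩
        refine ⟨?_, a.2⟩
        rw [hmem]
        exact ha
    rw [this, Set.ncard_image_of_injective _ Subtype.val_injective]
  rw [← hcard]
  refine rec_ell m hm hpos d L ι hr hI hdisc hrk 1 one_pos (fun _ => hpos _) Unit (fun _ => 0) S ?_ ?_
  · intro p hp
    obtain ⟨a, ha, rfl⟩ := Finset.mem_image.1 hp
    rw [Set.Finite.mem_toFinset] at ha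
    simpa using ha
  · intro p _ q _ h
    exact absurd (Subsingleton.elim _ _) h

end Pool.Agent.Results.MP_98df5b_co.Ellipsoids
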